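import Pool.Agent.KS6_56.TI.Cyc

/-!
# `t`-independent pairs in cyclic groups, all `t`
-/

set_option autoImplicit false

namespace Pool.Agent.KS6_56.TI

/-- The explicit condition for the existence of a `s`-independent pair in `ℤ/b`. -/
def Two (b s : ℕ) : Prop :=
  (s % 2 = 0 ∧ s ^ 2 / 2 + s + 1 ≤ b) ∨
    (s % 2 = 1 ∧ (s + 1) ^ 2 / 2 ≤ b ∧
      (s ^ 2 / 2 + s + (s + 1) / 2 < b ∨ (b % 2 = 0 ∧ (s % 4 = 1 → b % 4 ≠ 0))))

lemma two_even (k b : ℕ) : Two b (2 * k) ↔ 2 * k * k + 2 * k + 1 ≤ b := by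
  have h1 : (2 * k) ^ 2 / 2 = 2 * k * k := by
    rw [show (2 * k) ^ 2 = 2 * (2 * k * k) by ring]
    omega
  unfold Two
  rw [h1]
  omega

lemma two_odd (k b : ℕ) (hk : 1 ≤ k) : Two b (2 * k - 1) ↔
    2 * k * k ≤ b ∧ ((2 * k + 1) * k ≤ b ∨ (b % 2 = 0 ∧ (k % 2 = 1 → b % 4 ≠ 0))) := by
  have h0 : (2 * k - 1 + 1) = 2 * k := by omega
  have h1 : (2 * k) ^ 2 / 2 = 2 * k * k := by
    rw [show (2 * k) ^ 2 = 2 * (2 * k * k) by ring]
    omega
  have h2 : (2 * k - 1) ^ 2 / 2 + (2 * k - 1) + 1 = 2 * k * k := by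
    obtain ⟨j, rfl⟩ : ∃ j, k = j + 1 := ⟨k - 1, by omega⟩
    have : (2 * (j + 1) - 1) ^ 2 = 2 * (2 * j * j + 2 * j) + 1 := by
      rw [show 2 * (j + 1) - 1 = 2 * j + 1 by omega]
      ring
    rw [this]
    have h3 : 2 * (j + 1) * (j + 1) = 2 * j * j + 4 * j + 2 := by ring
    rw [h3]
    omega
  have h3 : (2 * k + 1) * k = 2 * k * k + k := by ring
  unfold Two
  rw [h0, h1, h3]
  omega

lemma lower_even {k : ℕ} {G : Type} [AddCommGroup G] [Finite G] {a b : G}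
    (h : P2 (2 * k) a b) : 2 * k * k + 2 * k + 1 ≤ Nat.card G := by
  classical
  by_contra hc
  push Not at hc
  haveI := Fintype.ofFinite G
  let X : (Fin (k + 1) × Fin (k + 1)) ⊕ (Fin k × Fin k) → ℤ :=
    Sum.elim (fun p => (p.1 : ℤ) + p.2 - k) (fun p => (p.1 : ℤ) + p.2 - (k - 1))
  let Y : (Fin (k + 1) × Fin (k + 1)) ⊕ (Fin k × Fin k) → ℤ :=
    Sum.elim (fun p => (p.1 : ℤ) - p.2) (fun p => (p.1 : ℤ) - p.2)
  have hXY : ∀ i, |X i| + |Y i| ≤ k := by
    rintro (⟨u, v⟩ | ⟨u, v⟩)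
    · have h1 := u.2
      have h2 := v.2
      simp only [X, Y, Sum.elim_inl]
      rcases abs_cases ((u : ℤ) + v - k) with ⟨e, _⟩ | ⟨e, _⟩ <;>
        rcases abs_cases ((u : ℤ) - v) with ⟨f, _⟩ | ⟨f, _⟩ <;> omega
    · have h1 := u.2
      have h2 := v.2
      simp only [X, Y, Sum.elim_inr]
      rcases abs_cases ((u : ℤ) + v - (k - 1)) with ⟨e, _⟩ | ⟨e, _⟩ <;>
        rcases abs_cases ((u : ℤ) - v) with ⟨f, _⟩ | ⟨f, _⟩ <;> omega
  have hinj : ∀ i j, X i = X j → Y i = Y j → i = j := by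
    rintro (⟨u, v⟩ | ⟨u, v⟩) (⟨u', v'⟩ | ⟨u', v'⟩) h1 h2 <;>
      simp only [X, Y, Sum.elim_inl, Sum.elim_inr] at h1 h2
    · congr 1
      refine Prod.ext (Fin.ext ?_) (Fin.ext ?_) <;> simp only <;> omega
    · omega
    · omega
    · congr 1
      refine Prod.ext (Fin.ext ?_) (Fin.ext ?_) <;> simp only <;> omega
  obtain ⟨i, j, hne, he⟩ := Fintype.exists_ne_map_eq_of_card_lt (fun i => X i • a + Y i • b) (by
    rw [← Nat.card_eq_fintype_card]
    simp only [Fintype.card_sum, Fintype.card_prod, Fintype.card_fin]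
    have : (k + 1) * (k + 1) + k * k = 2 * k * k + 2 * k + 1 := by ring
    omega)
  have h1 := h (X i - X j) (Y i - Y j) (by
    have e1 := abs_sub (X i) (X j)
    have e2 := abs_sub (Y i) (Y j)
    have e3 := hXY i
    have e4 := hXY j
    push_cast
    linarith) (by
    rw [sub_smul, sub_smul]
    have := sub_eq_zero.2 he
    rw [← this]; abel)
  exact hne (hinj i j (by omega) (by omega))

lemma exC_of_two {b s : ℕ} (h : Two b s) : ExC b s := by
  rcases Nat.even_or_odd' s with ⟨k, hk | hk⟩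
  · subst hk
    rw [two_even] at h
    rcases Nat.eq_zero_or_pos k with rfl | hk
    · refine ⟨1, 0, isCoprime_one_left, fun x y h1 _ => ?_⟩
      have h2 := abs_nonneg x
      have h3 := abs_nonneg y
      push_cast at h1
      have h4 : |x| = 0 := by omega
      have h5 : |y| = 0 := by omega
      exact ⟨abs_eq_zero.1 h4, abs_eq_zero.1 h5⟩
    · refine ⟨k, k + 1, ⟨-1, 1, by ring⟩, fun x y h1 h2 => ?_⟩
      have hk' : (1 : ℤ) ≤ k := by exact_mod_cast hk
      push_cast at h1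
      refine zero (p := k) (q := k + 1) (by omega) (by omega) ⟨-1, 1, by ring⟩ (by omega)
        (Int.eq_zero_of_abs_lt_dvd h2 ?_)
      have := bnd (p := k) (q := k + 1) (by omega) (by omega) h1
      have hz : (2 * k * k + 2 * k + 1 : ℤ) ≤ b := by exact_mod_cast h
      nlinarith
  · obtain ⟨j, hj, hj1⟩ : ∃ j, s = 2 * j - 1 ∧ 1 ≤ j := ⟨k + 1, by omega, by omega⟩
    rw [hj, two_odd j b hj1] at h
    rw [hj]
    rcases Nat.lt_or_ge j 2 with hj2 | hj2
    · obtain rfl : j = 1 := by omega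
      refine ⟨1, 1, isCoprime_one_left, fun x y h1 h2 => ?_⟩
      push_cast at h1
      have hb : (2 : ℤ) ≤ b := by exact_mod_cast h.1
      have h3 : x * 1 + y * 1 = 0 := by
        refine Int.eq_zero_of_abs_lt_dvd h2 ?_
        have := abs_add_le x y
        rw [mul_one, mul_one]
        have h4 : |x| + |y| ≤ 1 := by simpa using h1
        omega
      have h4 : |x| + |y| ≤ 1 := by simpa using h1
      rcases abs_cases x with ⟨e, _⟩ | ⟨e, _⟩ <;> rcases abs_cases y with ⟨f, _⟩ | ⟨f, _⟩ <;> omega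
    · exact ex hj2 h.1 h.2

lemma two_of_P2 {b s : ℕ} (hb : 0 < b) {x y : ZMod b} (h : P2 s x y) : Two b s := by
  have : NeZero b := ⟨hb.ne'⟩
  rcases Nat.even_or_odd' s with ⟨k, hk | hk⟩
  · subst hk
    rw [two_even]
    have := lower_even h
    rwa [Nat.card_zmod] at this
  · obtain ⟨j, hj, hj1⟩ : ∃ j, s = 2 * j - 1 ∧ 1 ≤ j := ⟨k + 1, by omega, by omega⟩
    rw [hj, two_odd j b hj1]
    rw [hj] at h
    have h1 := lower hj1 h
    rw [Nat.card_zmod] at h1
    refine ⟨h1, ?_⟩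
    rcases Nat.lt_or_ge j 2 with hj2 | hj2
    · obtain rfl : j = 1 := by omega
      omega
    · by_contra hcon
      push Not at hcon
      have hpar : 2 * j * j % 2 = 0 ∧ (j % 2 = 1 → 2 * j * j % 4 = 2) := by
        refine ⟨by rw [mul_assoc]; omega, fun h => ?_⟩
        have : j * j % 2 = 1 := by rw [Nat.mul_mod, h]
        rw [mul_assoc]; omega
      rcases Nat.lt_or_ge (2 * j * j) b with h2 | h2
      · have h3 := key hj2 h2 hcon.1 h
        obtain ⟨h4, h5⟩ := hcon.2 h3.1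
        exact h3.2 h4 h5
      · have h3 : b = 2 * j * j := by omega
        obtain ⟨h4, h5⟩ := hcon.2 (by rw [h3]; exact hpar.1)
        have h6 := hpar.2 h4
        omega

end Pool.Agent.KS6_56.TI
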