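import Pool.Agent.KS6_56.TI.Even

/-!
# `t`-independent pairs in finite abelian groups
-/

set_option autoImplicit false

namespace Pool.Agent.KS6_56.TI

/-- The group `G` contains a copy of `ℤ/a × ℤ/(a b)`. -/
def Contains (G : Type) [AddCommGroup G] (a b : ℕ) : Prop :=
  ∃ f : ZMod a × ZMod (a * b) →+ G, Function.Injective f

lemma contains_iff {G : Type} [AddCommGroup G] {a b : ℕ} :
    Contains G a b ↔ ∃ u v : G, ∀ i j : ℤ,
      i • u + j • v = 0 ↔ (a : ℤ) ∣ i ∧ ((a * b : ℕ) : ℤ) ∣ j := by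
  constructor
  · rintro ⟨f, hf⟩
    refine ⟨f (1, 0), f (0, 1), fun i j => ?_⟩
    rw [← map_zsmul, ← map_zsmul, ← map_add]
    have h1 : i • ((1, 0) : ZMod a × ZMod (a * b)) + j • (0, 1) = ((i : ZMod a), (j : ZMod (a * b))) := by
      ext <;> simp
    rw [h1]
    constructor
    · intro h
      have h2 := hf (h.trans (map_zero f).symm)
      rw [Prod.ext_iff] at h2
      exact ⟨(ZMod.intCast_zmod_eq_zero_iff_dvd _ _).1 h2.1,
        (ZMod.intCast_zmod_eq_zero_iff_dvd _ _).1 h2.2⟩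
    · rintro ⟨h2, h3⟩
      rw [(ZMod.intCast_zmod_eq_zero_iff_dvd _ _).2 h2, (ZMod.intCast_zmod_eq_zero_iff_dvd _ _).2 h3]
      exact map_zero f
  · rintro ⟨u, v, h⟩
    let f1 : ZMod a →+ G := ZMod.lift a ⟨zmultiplesHom G u, by
      have := (h a 0).2 ⟨dvd_rfl, dvd_zero _⟩
      simpa using this⟩
    let f2 : ZMod (a * b) →+ G := ZMod.lift (a * b) ⟨zmultiplesHom G v, by
      have := (h 0 ((a * b : ℕ) : ℤ)).2 ⟨dvd_zero _, dvd_rfl⟩
      rw [zero_smul, zero_add] at this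
      simpa only [zmultiplesHom_apply] using this⟩
    refine ⟨f1.coprod f2, (injective_iff_map_eq_zero _).2 ?_⟩
    rintro ⟨x, y⟩ hxy
    obtain ⟨i, rfl⟩ := ZMod.intCast_surjective x
    obtain ⟨j, rfl⟩ := ZMod.intCast_surjective y
    have h1 : f1 (i : ZMod a) = i • u := by
      simp only [f1, ZMod.lift_coe, zmultiplesHom_apply]
    have h2 : f2 (j : ZMod (a * b)) = j • v := by
      simp only [f2, ZMod.lift_coe, zmultiplesHom_apply]
    rw [AddMonoidHom.coprod_apply, h1, h2, h] at hxy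
    rw [Prod.mk_eq_zero]
    exact ⟨(ZMod.intCast_zmod_eq_zero_iff_dvd _ _).2 hxy.1,
      (ZMod.intCast_zmod_eq_zero_iff_dvd _ _).2 hxy.2⟩

lemma pair_of {G : Type} [AddCommGroup G] {a b t : ℕ} (ha : 1 ≤ a) (h : Contains G a b)
    (hE : ExC b (t / a)) : ∃ x y : G, P2 t x y := by
  obtain ⟨u, v, h⟩ := contains_iff.1 h
  obtain ⟨p, q, ⟨α, β, hab⟩, H⟩ := hE
  refine ⟨β • u + p • v, (-α) • u + q • v, fun X Y h1 h2 => ?_⟩
  have h3 : (X * β - Y * α) • u + (X * p + Y * q) • v = 0 := by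
    rw [← h2]
    module
  obtain ⟨h4, h5⟩ := (h _ _).1 h3
  have h6 : (a : ℤ) ∣ X * p + Y * q := dvd_trans (by push_cast; exact dvd_mul_right _ _) h5
  have hX : (a : ℤ) ∣ X := by
    have : X = α * (X * p + Y * q) + q * (X * β - Y * α) := by
      linear_combination (-X) * hab
    rw [this]
    exact dvd_add (h6.mul_left _) (h4.mul_left _)
  have hY : (a : ℤ) ∣ Y := by
    have : Y = β * (X * p + Y * q) - p * (X * β - Y * α) := by
      linear_combination (-Y) * hab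
    rw [this]
    exact dvd_sub (h6.mul_left _) (h4.mul_left _)
  obtain ⟨X', rfl⟩ := hX
  obtain ⟨Y', rfl⟩ := hY
  have ha' : (0 : ℤ) < a := by exact_mod_cast ha
  have h7 : (b : ℤ) ∣ X' * p + Y' * q := by
    have : (a : ℤ) * X' * p + a * Y' * q = a * (X' * p + Y' * q) := by ring
    rw [this] at h5
    push_cast at h5
    exact Int.dvd_of_mul_dvd_mul_left ha'.ne' h5
  have h8 : |X'| + |Y'| ≤ ((t / a : ℕ) : ℤ) := by
    rw [abs_mul, abs_mul, abs_of_pos ha'] at h1
    push_cast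
    rw [Int.le_ediv_iff_mul_le ha']
    linarith
  obtain ⟨h9, h10⟩ := H X' Y' h8 h7
  rw [h9, h10]
  simp

lemma exists_coprime_add {A B C : ℤ} (hC : C ≠ 0)
    (h : ∀ p : ℕ, p.Prime → (p : ℤ) ∣ A → (p : ℤ) ∣ B → ¬ (p : ℤ) ∣ C) :
    ∃ k : ℤ, IsCoprime (B + k * A) C := by
  classical
  let T : Finset ℕ := C.natAbs.primeFactors.filter fun p => ¬ (p : ℤ) ∣ B
  let k : ℕ := ∏ p ∈ T, p
  refine ⟨k, ?_⟩
  rw [Int.isCoprime_iff_gcd_eq_one]
  apply Nat.coprime_of_dvd
  intro p hp h1 h2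
  have h1' : (p : ℤ) ∣ B + k * A := Int.natCast_dvd.2 h1
  have h2' : (p : ℤ) ∣ C := Int.natCast_dvd.2 h2
  by_cases hB : (p : ℤ) ∣ B
  · have h3 : (p : ℤ) ∣ k * A := (dvd_add_right hB).1 h1'
    rcases (Nat.prime_iff_prime_int.1 hp).dvd_or_dvd h3 with h4 | h4
    · have h5 : p ∣ k := by exact_mod_cast h4
      obtain ⟨q, hq, hpq⟩ := (hp.prime.dvd_finset_prod_iff _).1 h5
      have hqp : q.Prime := (Nat.mem_primeFactors.1 (Finset.mem_filter.1 hq).1).1
      have : p = q := (Nat.prime_dvd_prime_iff_eq hp hqp).1 hpq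
      subst this
      exact (Finset.mem_filter.1 hq).2 hB
    · exact h p hp h4 hB h2'
  · have h3 : p ∈ T := Finset.mem_filter.2
      ⟨Nat.mem_primeFactors.2 ⟨hp, h2, Int.natAbs_ne_zero.2 hC⟩, hB⟩
    have h4 : p ∣ k := Finset.dvd_prod_of_mem _ h3
    apply hB
    have h5 : (p : ℤ) ∣ k * A := (by exact_mod_cast h4 : (p : ℤ) ∣ k).mul_right _
    exact (dvd_add_left h5).1 h1'

/-- the structure of the relations between two elements -/
lemma relations {G : Type} [AddCommGroup G] [Finite G] (x y : G) :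
    ∃ (A C : ℕ) (B : ℤ), 0 < A ∧ 0 < C ∧ ∀ l m : ℤ, l • x + m • y = 0 ↔
      ∃ i j : ℤ, l = i * A + j * B ∧ m = j * C := by
  classical
  have hex : ∃ m : ℕ, 0 < m ∧ ∃ l : ℤ, l • x + (m : ℤ) • y = 0 :=
    ⟨addOrderOf y, addOrderOf_pos y, 0, by simp [addOrderOf_nsmul_eq_zero]⟩
  obtain ⟨hC, B, hB⟩ := Nat.find_spec hex
  have hmin : ∀ m : ℕ, m < Nat.find hex → 0 < m → ∀ l : ℤ, l • x + (m : ℤ) • y ≠ 0 := by
    intro m hm h0 l h
    exact Nat.find_min hex hm ⟨h0, l, h⟩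
  set C := Nat.find hex
  refine ⟨addOrderOf x, C, B, addOrderOf_pos x, hC, fun l m => ?_⟩
  constructor
  · intro h
    have hC' : (0 : ℤ) < C := by exact_mod_cast hC
    have h1 : (l - m / C * B) • x + (m % C) • y = 0 := by
      have : (m : ℤ) = m / C * C + m % C := by rw [mul_comm]; exact (Int.mul_ediv_add_emod m C).symm
      have h2 : l • x + m • y = (l - m / C * B) • x + (m % C) • y + (m / C) • (B • x + (C : ℤ) • y) := by
        conv_lhs => rw [this]
        module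
      rw [h2, hB, smul_zero, add_zero] at h
      exact h
    have h2 : m % C = 0 := by
      by_contra h0
      have h3 := Int.emod_nonneg m hC'.ne'
      have h4 := Int.emod_lt_of_pos m hC'
      obtain ⟨r, hr⟩ := Int.eq_ofNat_of_zero_le h3
      rw [hr] at h1 h0 h4
      exact hmin r (by exact_mod_cast h4) (by
        rcases Nat.eq_zero_or_pos r with h5 | h5
        · exact absurd (by rw [h5]; rfl) h0
        · exact h5) _ h1
    rw [h2, zero_smul, add_zero] at h1
    obtain ⟨i, hi⟩ := addOrderOf_dvd_iff_zsmul_eq_zero.2 h1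
    refine ⟨i, m / C, ?_, ?_⟩
    · linear_combination hi
    · have := Int.mul_ediv_add_emod m C
      rw [h2] at this
      linear_combination -this
  · rintro ⟨i, j, rfl, rfl⟩
    have h1 : (addOrderOf x : ℤ) • x = 0 := by
      rw [natCast_zsmul]; exact addOrderOf_nsmul_eq_zero x
    have h2 : (i * (addOrderOf x : ℤ) + j * B) • x + (j * (C : ℤ)) • y =
        i • ((addOrderOf x : ℤ) • x) + j • (B • x + (C : ℤ) • y) := by module
    rw [h2, h1, hB, smul_zero, smul_zero, add_zero]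

end Pool.Agent.KS6_56.TI
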