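import Pool.Agent.KS6_56.TI.Grp

/-!
# `t`-independent pairs in finite abelian groups: the criterion
-/

set_option autoImplicit false

namespace Pool.Agent.KS6_56.TI

lemma of_pair {G : Type} [AddCommGroup G] [Finite G] {t : ℕ} {x y : G} (h : P2 t x y) :
    ∃ a b : ℕ, 1 ≤ a ∧ 1 ≤ b ∧ Contains G a b ∧ Two b (t / a) := by
  obtain ⟨A, C, B, hA, hC, hL⟩ := relations x y
  let a : ℕ := Nat.gcd (Nat.gcd A B.natAbs) C
  have ha : 0 < a := Nat.gcd_pos_of_pos_right _ hC
  obtain ⟨A', hA'⟩ : a ∣ A := (Nat.gcd_dvd_left _ _).trans (Nat.gcd_dvd_left _ _)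
  obtain ⟨C', hC'⟩ : a ∣ C := Nat.gcd_dvd_right _ _
  obtain ⟨B', hB'⟩ : (a : ℤ) ∣ B :=
    Int.natCast_dvd.2 ((Nat.gcd_dvd_left _ _).trans (Nat.gcd_dvd_right _ _))
  have haz : (0 : ℤ) < a := by exact_mod_cast ha
  have hA'0 : 0 < A' := Nat.pos_of_ne_zero fun h0 => by rw [h0, mul_zero] at hA'; omega
  have hC'0 : 0 < C' := Nat.pos_of_ne_zero fun h0 => by rw [h0, mul_zero] at hC'; omega
  have hC'z : (C' : ℤ) ≠ 0 := by exact_mod_cast hC'0.ne'
  obtain ⟨k, hk⟩ := exists_coprime_add (A := (A' : ℤ)) (B := B') (C := (C' : ℤ)) hC'z (by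
    intro p hp h1 h2 h3
    have e1 : a * p ∣ A := by
      rw [hA']
      exact Nat.mul_dvd_mul_left a (by exact_mod_cast h1)
    have e2 : a * p ∣ C := by
      rw [hC']
      exact Nat.mul_dvd_mul_left a (by exact_mod_cast h3)
    have e3 : a * p ∣ B.natAbs := by
      rw [← Int.natCast_dvd, hB']
      push_cast
      exact mul_dvd_mul_left _ h2
    have e4 : a * p ∣ a := Nat.dvd_gcd (Nat.dvd_gcd e1 e3) e2
    have e5 := Nat.le_of_dvd ha e4
    have e6 := hp.two_le
    nlinarith)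
  obtain ⟨w1, hw1⟩ : ∃ w1 : ℤ, w1 = B' + k * A' := ⟨_, rfl⟩
  rw [← hw1] at hk
  obtain ⟨α, β, e⟩ := id hk
  have hb : 0 < A' * C' := Nat.mul_pos hA'0 hC'0
  have hAz : (A : ℤ) = a * A' := by exact_mod_cast hA'
  have hCz : (C : ℤ) = a * C' := by exact_mod_cast hC'
  have hchar : ∀ l m : ℤ, l • x + m • y = 0 ↔ ∃ l' m' : ℤ, l = a * l' ∧ m = a * m' ∧
      ((A' * C' : ℕ) : ℤ) ∣ w1 * m' - C' * l' := by
    intro l m
    rw [hL]
    constructor
    · rintro ⟨i, j, rfl, rfl⟩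
      refine ⟨i * A' + j * B', j * C', by rw [hAz, hB']; ring, by rw [hCz]; ring, ?_⟩
      refine ⟨k * j - i, ?_⟩
      rw [hw1]
      push_cast
      ring
    · rintro ⟨l', m', rfl, rfl, n, hn⟩
      push_cast at hn
      have h1 : (C' : ℤ) ∣ m' := by
        apply hk.symm.dvd_of_dvd_mul_left
        exact ⟨A' * n + l', by linear_combination hn⟩
      obtain ⟨j, rfl⟩ := h1
      have h2 : w1 * j - l' = A' * n := by
        apply mul_left_cancel₀ hC'z
        linear_combination hn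
      refine ⟨k * j - n, j, ?_, ?_⟩
      · rw [hAz, hB']
        have : l' = w1 * j - A' * n := by linarith
        rw [this, hw1]
        ring
      · rw [hCz]; ring
  refine ⟨a, A' * C', ha, hb, ?_, ?_⟩
  · rw [contains_iff]
    refine ⟨w1 • x + (C' : ℤ) • y, (-β) • x + α • y, fun i j => ?_⟩
    have h1 : i • (w1 • x + (C' : ℤ) • y) + j • ((-β) • x + α • y) =
        (i * w1 - j * β) • x + (i * C' + j * α) • y := by module
    rw [h1, hchar]
    constructor
    · rintro ⟨l', m', h2, h3, n, hn⟩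
      refine ⟨⟨α * l' + β * m', by linear_combination α * h2 + β * h3 - i * e⟩, ⟨n, ?_⟩⟩
      push_cast at hn ⊢
      linear_combination a * hn - C' * h2 + w1 * h3 - j * e
    · rintro ⟨⟨i', rfl⟩, ⟨j', rfl⟩⟩
      refine ⟨i' * w1 - (A' * C') * j' * β, i' * C' + (A' * C') * j' * α, ?_, ?_, ⟨j', ?_⟩⟩
      · push_cast; ring
      · push_cast; ring
      · push_cast
        linear_combination (A' * C' * j') * e
  · apply two_of_P2 hb (x := ((-C' : ℤ) : ZMod (A' * C'))) (y := ((w1 : ℤ) : ZMod (A' * C')))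
    intro X Y h1 h2
    have h3 : ((A' * C' : ℕ) : ℤ) ∣ w1 * Y - C' * X := by
      rw [← ZMod.intCast_zmod_eq_zero_iff_dvd]
      rw [zsmul_eq_mul, zsmul_eq_mul] at h2
      push_cast at h2 ⊢
      linear_combination h2
    have h4 := h (a * X) (a * Y) (by
      rw [abs_mul, abs_mul, abs_of_pos haz]
      push_cast at h1
      rw [Int.le_ediv_iff_mul_le haz] at h1
      linarith) ((hchar _ _).2 ⟨X, Y, rfl, rfl, h3⟩)
    exact ⟨(mul_eq_zero.1 h4.1).resolve_left haz.ne', (mul_eq_zero.1 h4.2).resolve_left haz.ne'⟩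

theorem pair_iff {G : Type} [AddCommGroup G] [Finite G] {t : ℕ} :
    (∃ x y : G, P2 t x y) ↔ ∃ a b : ℕ, 1 ≤ a ∧ 1 ≤ b ∧ Contains G a b ∧ Two b (t / a) := by
  constructor
  · rintro ⟨x, y, h⟩
    exact of_pair h
  · rintro ⟨a, b, ha, _, h1, h2⟩
    exact pair_of ha h1 (exC_of_two h2)

lemma single {t : ℕ} {G : Type} [AddCommGroup G] [Finite G] :
    (∃ A : Finset G, Indep t A ∧ A.card = 1) ↔ t + 1 ≤ AddMonoid.exponent G := by
  have hpos : 0 < AddMonoid.exponent G :=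
    AddMonoid.ExponentExists.exponent_pos AddMonoid.ExponentExists.of_finite
  constructor
  · rintro ⟨A, hA, h1⟩
    obtain ⟨a, rfl⟩ := Finset.card_eq_one.1 h1
    by_contra hc
    have := hA (fun _ => (AddMonoid.exponent G : ℤ)) (by simp; omega) (by
      rw [Finset.sum_singleton, natCast_zsmul]
      exact AddMonoid.exponent_nsmul_eq_zero a) a (by simp)
    omega
  · intro h
    obtain ⟨g, hg⟩ := AddMonoid.exists_addOrderOf_eq_exponent
      (AddMonoid.ExponentExists.of_finite (G := G))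
    refine ⟨{g}, fun l h1 h2 a ha => ?_, by simp⟩
    rw [Finset.mem_singleton] at ha
    subst ha
    rw [Finset.sum_singleton] at h1 h2
    refine Int.eq_zero_of_abs_lt_dvd (m := addOrderOf a) ?_ (by rw [hg]; omega)
    exact addOrderOf_dvd_iff_zsmul_eq_zero.2 h2

end Pool.Agent.KS6_56.TI
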